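import Pool.Agent.Helper20.QP.St3

/-!
Project QD part P (MP_d112a4_gt), module OPA: opening of one short curve.
-/

set_option autoImplicit false

open Filter Topology Matrix Set Metric MeasureTheory
open scoped ComplexConjugate ENNReal

namespace Pool.Agent.Helper24.QP

open Pool.Agent.Helper35.PM Pool.Agent.Helper20.QD Pool.Agent.Helper20.QP

private lemma area_bound (hAAIN : StAAIN) (hATFR : StATFR) (g : ℕ) :
    ∃ a0 : ℝ, 0 ≤ a0 ∧ ∀ τ : SurfaceGroup g →* SL, Fuch τ → ∃ F0 : Set ℂ, FD τ F0 ∧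
      (∫ z in F0, 4 / (1 - ‖z‖ ^ 2) ^ 2) ≤ a0 := by
  by_cases hex : ∃ σ : SurfaceGroup g →* SL, Fuch σ
  · obtain ⟨σ, hσ⟩ := hex
    obtain ⟨⟨F, hF⟩, -⟩ := hAAIN (SurfaceGroup g) σ σ hσ hσ (hATFR g)
    refine ⟨∫ z in F, 4 / (1 - ‖z‖ ^ 2) ^ 2, integral_nonneg (fun z => by positivity), ?_⟩
    intro τ hτ
    obtain ⟨⟨F', hF'⟩, h⟩ := hAAIN (SurfaceGroup g) τ σ hτ hσ (hATFR g)
    exact ⟨F', hF', (h F' F hF' hF).le⟩
  · exact ⟨0, le_rfl, fun τ hτ => absurd ⟨τ, hτ⟩ hex⟩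

/-- OPA. opening of one short curve -/
theorem hOPA (hTDI : StTDI) (hAAIN : StAAIN) (hATFR : StATFR) (hHY2 : StHY2) : StOPA := by
  intro hCST g hg
  obtain ⟨ε0', C3, C4, hε0', hC3, hC4, hT⟩ := hTDI
  obtain ⟨a0, ha0, harea⟩ := area_bound hAAIN hATFR g
  obtain ⟨ms, K, Dd, hms, hK, hD, hC⟩ := hCST g hg C3 a0 hC3 ha0
  have hpi := Real.pi_pos
  set T : ℝ := K * ms with hTdef
  have hT1 : 1 ≤ T := by rw [hTdef]; nlinarith
  refine ⟨min ε0' (Real.pi / (C4 + T)), min (Real.pi / (T + C3)) (1 / 82), Dd,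
    lt_min hε0' (by positivity), lt_min (by positivity) (by norm_num), hD, ?_⟩
  intro U hU σ ρ κ k α hSt hα hll
  have hpos : 0 < ll (σ α) := by
    obtain ⟨-, -, ε, hε, hth⟩ := hHY2 (SurfaceGroup g) σ hSt.fs (hATFR g)
    have h1 : 0 < sh (σ α) := lt_of_lt_of_le hε (hth α hα.1)
    have h2 : 0 < Real.arsinh (Real.sqrt (sh (σ α))) :=
      Real.arsinh_pos_iff.2 (Real.sqrt_pos.2 h1)
    unfold ll
    linarith
  obtain ⟨R, h, hR0, hh, hh0, hTD, hpts⟩ := hT g a0 hg harea σ ρ κ k α hSt hα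
    (hll.trans (min_le_left _ _))
  have hhT : T ≤ h := by
    have h1 : ll (σ α) ≤ Real.pi / (C4 + T) := hll.trans (min_le_right _ _)
    have h2 : C4 + T ≤ Real.pi / ll (σ α) := by
      rw [le_div_iff₀ hpos]
      rw [le_div_iff₀ (by linarith)] at h1
      linarith
    linarith
  have hT0 : 0 < T := by linarith
  set t : ℝ := (h - T) / (h + T) with ht
  have ht0 : 0 ≤ t := div_nonneg (by linarith) (by linarith)
  have ht1 : t < 1 := by
    rw [ht, div_lt_one (by linarith)]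
    linarith
  have hhf : h * hf (t : ℂ) = T := by
    have h1 : hf (t : ℂ) = (1 - t) / (1 + t) := by
      unfold hf
      have h2 : (1 - (t : ℂ)) / (1 + (t : ℂ)) = (((1 - t) / (1 + t) : ℝ) : ℂ) := by push_cast; rfl
      rw [h2, Complex.ofReal_re]
    have h3 : (1 : ℝ) - t = 2 * T / (h + T) := by
      rw [ht]; field_simp; ring
    have h4 : (1 : ℝ) + t = 2 * h / (h + T) := by
      rw [ht]; field_simp; ring
    rw [h1, h3, h4]
    field_simp
  have hTD' : TDisc R α h ms C3 a0 := ⟨hTD.hol, fun s hs hms' => hTD.pts s hs (hms.trans hms')⟩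
  have hdist := hC U hU R α h hTD' t ht0 ht1 (by rw [hhf])
  rw [hR0] at hdist
  have htb : (t : ℂ) ∈ ball (0 : ℂ) 1 := by
    rw [mem_ball_zero_iff, Complex.norm_real, Real.norm_eq_abs, abs_of_nonneg ht0]
    exact ht1
  obtain ⟨σ', κ', k', hSt', hl0, hl1, hβ⟩ := hpts (t : ℂ) htb
  rw [hhf] at hl1
  refine ⟨σ', R t, κ', k', hSt', hdist, ?_, ?_⟩
  · refine (min_le_left _ _).trans ?_
    rw [div_le_iff₀ (by linarith)]
    rw [div_le_iff₀ hl0] at hl1
    linarith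
  · intro β h1 h2 h3
    exact hβ β h1 h2 (h3.trans (min_le_right _ _))

end Pool.Agent.Helper24.QP
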